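import Pool.Agent.R611.HM.X5

/-!
# Hensel minimality of an RV-expansion implies Hensel minimality of the original theory

Levels are elements of `ℕ∞`, with `⊤` standing for `ω`. The definitions are in
`Pool.Agent.R611.HM.Def`, `Pool.Agent.R611.HM.Def2` and `Pool.Agent.R611.HM.Def3`.
-/

set_option autoImplicit false

namespace Pool.Agent.Results.MP_6c374b_lc.ExpansionDescends

open FirstOrder Pool.Agent.R611.HM

universe u

/-- Let `K` be a non-trivially valued field of equicharacteristic zero in a language `L` expanding
the language of valued fields. Let the language be expanded by predicates on Cartesian powers of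
`RV`. For every level `l ∈ {0, 1, 2, …, ω}`: if the theory of `K` in the expanded language is
`l`-h-minimal, then the theory of `K` in `L` is `l`-h-minimal. -/
theorem result : ∀ (L : FirstOrder.Language.{u, u}) (sy : ValSymbols L) (K : Type u)
    [L.Structure K] [Field K] (O : ValuationSubring K), IsValued sy O → O ≠ ⊤ →
    ∀ (R : ℕ → Type u) (I : ∀ n, R n → Set (Fin n → RV O 1)) (l : ℕ∞),
      (letI := rvPreds O I; HMinTh (sy.expand R) K l) → HMinTh sy K l :=
  fun _ _ _ _ _ _ hO hnt _ I _ h => hMinTh_of_expansion hO hnt I h

end Pool.Agent.Results.MP_6c374b_lc.ExpansionDescends
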